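import Pool.Agent.H529R3.Gap.Main

/-!
# Collapse with polynomial exponents, but not with linear exponents

If `E^A = ESPACE^A` (linear exponents), then, by padding, `EXP^A = EXPSPACE^A` (polynomial
exponents). How often does the conclusion hold without the hypothesis? For every gauge `f`, the set
of the oracles `A` with `EXP^A = EXPSPACE^A` and `E^A ≠ ESPACE^A`, and the set of the oracles with
`EXP^A = EXPSPACE^A` and `E^A ≠ NE^A`, are null sets for `f` if and only if for every `ε > 0` there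
are infinitely many `N` with `f N ≤ 2 ^ ((log log N) ^ ε)`. (The oracles with `E^A = ESPACE^A` are a
null set for greater gauges.)
-/

set_option autoImplicit false

namespace Pool.Agent.Results.MP_d67941_lc.GaugeExpGap

open Pool.Agent.NPC Pool.Agent.H620R2.Gauge Pool.Agent.H622R2.Exp

theorem result (f : ℕ → ℝ) :
    (∀ O : Set Oracle,
      (∀ A : Oracle, (∀ L, InSpace Pol A L → InTime Pol A L) →
        (∃ L, InNTime Lin A L ∧ ¬ InTime Lin A L) → A ∈ O) →
      (∀ A ∈ O, ∀ L, InNTime Pol A L → InTime Pol A L) →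
      (Null f O ↔ ∀ ε : ℝ, 0 < ε → ∃ᶠ N : ℕ in Filter.atTop,
        f N ≤ 2 ^ (Real.logb 2 (Real.logb 2 N)) ^ ε)) ∧
    (Null f {A : Oracle | (∀ L, InTime Pol A L ↔ InSpace Pol A L) ∧
        ¬ ∀ L, InTime Lin A L ↔ InSpace Lin A L} ↔
      ∀ ε : ℝ, 0 < ε → ∃ᶠ N : ℕ in Filter.atTop,
        f N ≤ 2 ^ (Real.logb 2 (Real.logb 2 N)) ^ ε) ∧
    (Null f {A : Oracle | (∀ L, InTime Pol A L ↔ InSpace Pol A L) ∧
        ¬ ∀ L, InTime Lin A L ↔ InNTime Lin A L} ↔
      ∀ ε : ℝ, 0 < ε → ∃ᶠ N : ℕ in Filter.atTop,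
        f N ≤ 2 ^ (Real.logb 2 (Real.logb 2 N)) ^ ε) := by
  have h2 : ∀ A : Oracle, (∀ L, InTime Pol A L ↔ InSpace Pol A L) →
      ∀ L, InNTime Pol A L → InTime Pol A L :=
    fun A hA L hL => (hA L).2 (hL.isSpace good_Pol)
  refine ⟨fun O => H529R3.Gap.gap_above f O, H529R3.Gap.gap_above f _ ?_ fun A hA => h2 A hA.1,
    H529R3.Gap.gap_above f _ ?_ fun A hA => h2 A hA.1⟩
  · rintro A hA ⟨L, hL, hL'⟩
    exact ⟨fun L => ⟨fun h => h.isNTime.isSpace good_Pol, hA L⟩,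
      fun h => hL' ((h L).2 (hL.isSpace good_Lin))⟩
  · rintro A hA ⟨L, hL, hL'⟩
    exact ⟨fun L => ⟨fun h => h.isNTime.isSpace good_Pol, hA L⟩, fun h => hL' ((h L).2 hL)⟩

end Pool.Agent.Results.MP_d67941_lc.GaugeExpGap
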